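import Pool.Agent.H55.BQ.Targets

/-!
From coordinates to values.
-/

set_option autoImplicit false

open Finset Pool.Agent.H55.BP Pool.Agent.H55.BQ

namespace Pool.Agent.H78.BPQ

theorem comb (S₁ S₂ e₁ e₂ T₁ T₂ f₁ f₂ : ZMod 2) (h₁ : S₁ + S₂ = T₁ + T₂)
    (h₂ : e₁ + e₂ = f₁ + f₂) : (S₁ + e₁) + (S₂ + e₂) = (T₁ + f₁) + (T₂ + f₂) := by
  linear_combination h₁ + h₂

theorem pf_XRV : T_XRV := by
  classical
  intro n T L M lam mu h a b hab
  unfold XR XV incR inc
  refine congrArg₂ (· + ·) (Finset.sum_congr rfl fun k hk => ?_) ?_
  · have hk' := Finset.mem_range.1 hk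
    refine comb _ _ _ _ _ _ _ _ ?_ ?_
    · rw [← Finset.sum_add_distrib, ← Finset.sum_add_distrib]
      refine Finset.sum_congr rfl fun l hl => ?_
      have hl' := Finset.mem_range.1 hl
      have hss := h.ss a b k l hk' hl'
      have hC := (L a).step k hk'
      have hC' := (M b).step l hl'
      rcases lt_trichotomy ((L a).s k) ((M b).s l) with hlt | heq | hgt
      · have h1 : ¬ (M b).x l < (L a).x k := not_lt.2 (hss.1 hlt).le
        have h2 : ¬ 2 * ((M b).s l).val < 2 * ((L a).s k).val := by
          have : ((L a).s k).val < ((M b).s l).val := hlt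
          omega
        simp only [h1, h2, and_false]
      · have h2 : ¬ 2 * ((M b).s l).val < 2 * ((L a).s k).val := by
          rw [heq]
          exact lt_irrefl _
        by_cases h1 : (M b).x l < (L a).x k
        · have e1 : ((M b).C (l + 1) = (L a).C (k + 1)) ↔ ((M b).C l = (L a).C k) := by
            rw [hC, hC', heq]
            constructor
            · intro h3
              have := congrArg (T.r ((M b).s l)) h3
              rwa [T.rr, T.rr] at this
            · intro h3
              rw [h3]
          have e2 : ((M b).C l = (L a).C (k + 1)) ↔ ((M b).C (l + 1) = (L a).C k) := by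
            rw [hC, hC', heq]
            constructor
            · intro h3
              rw [h3, T.rr]
            · intro h3
              rw [← h3, T.rr]
          simp only [h1, h2, and_true, and_false, e1, e2]
          by_cases hP : (M b).C l = (L a).C k <;> by_cases hQ : (M b).C (l + 1) = (L a).C k <;>
            simp only [hP, hQ, if_true, if_false] <;> decide
        · simp only [h1, h2, and_false]
      · have h1 : (M b).x l < (L a).x k := hss.2 hgt
        have h2 : 2 * ((M b).s l).val < 2 * ((L a).s k).val := by
          have : ((M b).s l).val < ((L a).s k).val := hgt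
          omega
        simp only [h1, h2, and_true]
    · have key : ∀ c, (c = (L a).C k ∨ c = (L a).C (k + 1)) →
          ((if (M b).C (M b).K = c ∧ (M b).x (M b).K < (L a).x k then 1 else 0 : ZMod 2) =
          if (M b).C (M b).K = c ∧ 2 * (mu b).val + 1 < 2 * ((L a).s k).val then 1 else 0) := by
        intro c hc
        by_cases hcc : (M b).C (M b).K = c
        · have hse := h.se a b k hab hk' (by
            rcases hc with hc | hc
            · left; rw [hcc, hc]
            · right; rw [hcc, hc])
          rcases le_or_gt ((L a).s k) (mu b) with hle | hlt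
          · have h1 : ¬ (M b).x (M b).K < (L a).x k := not_lt.2 (hse.1 hle).le
            have h2 : ¬ 2 * (mu b).val + 1 < 2 * ((L a).s k).val := by
              have : ((L a).s k).val ≤ (mu b).val := hle
              omega
            rw [if_neg (fun h3 => h1 h3.2), if_neg (fun h3 => h2 h3.2)]
          · have h1 : (M b).x (M b).K < (L a).x k := hse.2 hlt
            have h2 : 2 * (mu b).val + 1 < 2 * ((L a).s k).val := by
              have : (mu b).val < ((L a).s k).val := hlt
              omega
            rw [if_pos ⟨hcc, h1⟩, if_pos ⟨hcc, h2⟩]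
        · rw [if_neg (fun h3 => hcc h3.1), if_neg (fun h3 => hcc h3.1)]
      exact congrArg₂ (· + ·) (key _ (Or.inl rfl)) (key _ (Or.inr rfl))
  · refine congrArg₂ (· + ·) (Finset.sum_congr rfl fun l hl => ?_) ?_
    · have hl' := Finset.mem_range.1 hl
      have key : ∀ c, (c = (M b).C l ∨ c = (M b).C (l + 1)) →
          ((if c = (L a).C (L a).K ∧ (M b).x l < (L a).x (L a).K then 1 else 0 : ZMod 2) =
          if c = (L a).C (L a).K ∧ 2 * ((M b).s l).val < 2 * (lam a).val + 1 then 1 else 0) := by
        intro c hc
        by_cases hcc : c = (L a).C (L a).K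
        · have hes := h.es a b l hab hl' (by
            rcases hc with hc | hc
            · left; rw [← hc, hcc]
            · right; rw [← hc, hcc])
          rcases le_or_gt ((M b).s l) (lam a) with hle | hlt
          · have h1 : (M b).x l < (L a).x (L a).K := hes.1 hle
            have h2 : 2 * ((M b).s l).val < 2 * (lam a).val + 1 := by
              have : ((M b).s l).val ≤ (lam a).val := hle
              omega
            rw [if_pos ⟨hcc, h1⟩, if_pos ⟨hcc, h2⟩]
          · have h1 : ¬ (M b).x l < (L a).x (L a).K := not_lt.2 (hes.2 hlt).le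
            have h2 : ¬ 2 * ((M b).s l).val < 2 * (lam a).val + 1 := by
              have : (lam a).val < ((M b).s l).val := hlt
              omega
            rw [if_neg (fun h3 => h1 h3.2), if_neg (fun h3 => h2 h3.2)]
        · rw [if_neg (fun h3 => hcc h3.1), if_neg (fun h3 => hcc h3.1)]
      exact congrArg₂ (· + ·) (key _ (Or.inl rfl)) (key _ (Or.inr rfl))
    · have h1 : (M b).C (M b).K ≠ (L a).C (L a).K := fun h2 => h.ee a b hab h2.symm
      simp only [h1, false_and, if_false]

end Pool.Agent.H78.BPQ
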