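import Pool.Agent.H55.BQ.Targets

/-!
The spiral data exist.
-/

set_option autoImplicit false

open Finset Pool.Agent.H55.BP Pool.Agent.H55.BQ

namespace Pool.Agent.H78.BPQ

theorem sg_true (z : ℂ) : sg z = true ↔ 0 ≤ z.im := by
  unfold sg
  exact decide_eq_true_iff

theorem sg_false (z : ℂ) : sg z = false ↔ z.im < 0 := by
  unfold sg
  rw [decide_eq_false_iff_not, not_le]

/-- convexity of the crossing point -/
theorem xr_conv (u v : ℂ) (h : (0 ≤ u.im ∧ v.im < 0) ∨ (u.im < 0 ∧ 0 ≤ v.im)) :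
    ∃ t : ℝ, 0 ≤ t ∧ t ≤ 1 ∧ xr u v = (1 - t) * u.re + t * v.re := by
  refine ⟨u.im / (u.im - v.im), ?_, ?_, ?_⟩
  · rcases h with ⟨h1, h2⟩ | ⟨h1, h2⟩
    · exact div_nonneg h1 (by linarith)
    · exact div_nonneg_of_nonpos h1.le (by linarith)
  · rcases h with ⟨h1, h2⟩ | ⟨h1, h2⟩
    · rw [div_le_one (by linarith)]
      linarith
    · rw [div_le_one_of_neg (by linarith)]
      linarith
  · unfold xr
    ring

theorem xr_shift (w : ℝ) (u v : ℂ) : xr ((w : ℂ) + u) ((w : ℂ) + v) = w + xr u v := by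
  unfold xr
  simp only [Complex.add_re, Complex.add_im, Complex.ofReal_re, Complex.ofReal_im, zero_add]
  ring

theorem xr_scale (c : ℝ) (hc : c ≠ 0) (u v : ℂ) : xr (u / (c : ℂ)) (v / (c : ℂ)) = xr u v / c := by
  unfold xr
  rw [Complex.div_ofReal_re, Complex.div_ofReal_re, Complex.div_ofReal_im, Complex.div_ofReal_im,
    ← sub_div, ← sub_div, div_div_div_cancel_right₀ hc]
  ring

/-- cells do not change without flips -/
theorem cell_const {n : ℕ} [NeZero n] (T : Pool.Agent.H55.BQ.LT n) (c₀ : T.V) (z : ℕ → ℂ) (k : ℕ) :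
    ∀ d : ℕ, (∀ i, k ≤ i → i < k + d → sg (z i) = sg (z (i + 1))) →
      cell T c₀ z (k + d) = cell T c₀ z k := by
  intro d
  induction d with
  | zero => intro _; rfl
  | succ d ih =>
    intro h
    have h1 : cell T c₀ z (k + d + 1) = if sg (z (k + d)) = sg (z (k + d + 1)) then
      cell T c₀ z (k + d) else T.r (side n (xr (z (k + d)) (z (k + d + 1)))) (cell T c₀ z (k + d)) :=
      rfl
    rw [← add_assoc, h1, if_pos (h (k + d) (by omega) (by omega))]
    exact ih fun i h2 h3 => h i h2 (by omega)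

theorem cell_flip {n : ℕ} [NeZero n] (T : Pool.Agent.H55.BQ.LT n) (c₀ : T.V) (z : ℕ → ℂ) (k : ℕ)
    (s : Fin n) (h : sg (z k) ≠ sg (z (k + 1))) (hs : side n (xr (z k) (z (k + 1))) = s) :
    cell T c₀ z (k + 1) = T.r s (cell T c₀ z k) := by
  have h1 : cell T c₀ z (k + 1) = if sg (z k) = sg (z (k + 1)) then
      cell T c₀ z k else T.r (side n (xr (z k) (z (k + 1)))) (cell T c₀ z k) := rfl
  rw [h1, if_neg h, hs]

theorem pf_SPI (hROT : T_ROT) (hSCL : T_SCL) (hSDL : T_SDL) : T_SPI := by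
  intro n _ T ι Y N hn hF e
  have hN : 100 ≤ N := hF.big
  have hNr : (0 : ℝ) < N := by
    have : (100 : ℝ) ≤ N := by exact_mod_cast hN
    linarith
  set w : ℝ := ((Y.wt e).val : ℝ) with hw
  have hwc : (((Y.wt e).val : ℕ) : ℂ) = (w : ℂ) := by rw [hw]; push_cast; rfl
  set a : ℂ := Y.γ e 1 - (((Y.wt e).val : ℕ) : ℂ) with ha
  have han : ‖a‖ = Y.rad := Y.hit e
  have ha0 : a ≠ 0 := by
    intro h
    rw [h, norm_zero] at han
    exact Y.rad_pos.ne han
  let u : ℕ → ℂ := fun k => a * Complex.exp (((k / N : ℝ) : ℂ) *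
    (2 * Real.pi * Complex.I - Real.log 2))
  obtain ⟨κ₀, κ₁, hk0, hk1, hL, hR, hpL, hpR⟩ := hROT N a u hN ha0 (fun k => rfl)
  have hz : ∀ k, Y.z N e (N + k) = (w : ℂ) + u k := by
    intro k
    unfold Sys.z
    have h1 : ((N + k : ℕ) : ℝ) / N = 1 + (k : ℝ) / N := by
      push_cast
      field_simp
    have h2 : (1 : ℝ) ≤ 1 + (k : ℝ) / N := by
      have : (0 : ℝ) ≤ (k : ℝ) / N := by positivity
      linarith
    rw [h1, Y.spi e _ h2, add_sub_cancel_left, hwc]
    simp only [u, ha, hwc]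
  have hz' : ∀ k, Y.z N e (N + k + 1) = (w : ℂ) + u (k + 1) := fun k => by
    rw [add_assoc, hz]
  have him : ∀ k, (Y.z N e (N + k)).im = (u k).im := fun k => by
    rw [hz, Complex.add_im, Complex.ofReal_im, zero_add]
  have him' : ∀ k, (Y.z N e (N + k + 1)).im = (u (k + 1)).im := fun k => by
    rw [hz', Complex.add_im, Complex.ofReal_im, zero_add]
  have hun : ∀ k, ‖u k‖ ≤ Y.rad := by
    intro k
    simp only [u]
    rw [norm_mul, han, Complex.norm_exp]
    have h1 : (((k / N : ℝ) : ℂ) * (2 * Real.pi * Complex.I - Real.log 2)).re =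
        -((k / N : ℝ) * Real.log 2) := by
      have h2 : (2 * (Real.pi : ℂ) * Complex.I).re = 0 := by simp
      rw [Complex.re_ofReal_mul, Complex.sub_re, Complex.ofReal_re, h2]
      ring
    rw [h1]
    have h2 : Real.exp (-((k / N : ℝ) * Real.log 2)) ≤ 1 := by
      rw [Real.exp_le_one_iff]
      have : (0 : ℝ) ≤ (k / N : ℝ) * Real.log 2 := mul_nonneg (by positivity)
        (Real.log_nonneg (by norm_num))
      linarith
    calc Y.rad * Real.exp (-((k / N : ℝ) * Real.log 2)) ≤ Y.rad * 1 :=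
          mul_le_mul_of_nonneg_left h2 Y.rad_pos.le
      _ = Y.rad := mul_one _
  have hxr : ∀ k, xr (Y.z N e (N + k)) (Y.z N e (N + k + 1)) = w + xr (u k) (u (k + 1)) := fun k => by
    rw [hz, hz', xr_shift]
  have hre : ∀ k, |(u k).re| ≤ Y.rad := fun k => (Complex.abs_re_le_norm _).trans (hun k)
  -- left and right crossings
  have hleft : ∀ k, N ≤ k → ((sg (Y.z N e k) = true ∧ sg (Y.z N e (k + 1)) = false) ↔
      ∃ m, k = (N + κ₀) + m * N) := by
    intro k hk
    obtain ⟨k', rfl⟩ := Nat.exists_eq_add_of_le hk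
    rw [sg_true, sg_false, him, him', hL]
    constructor
    · rintro ⟨m, rfl⟩
      exact ⟨m, by ring⟩
    · rintro ⟨m, hm⟩
      exact ⟨m, by omega⟩
  have hright : ∀ k, N ≤ k → ((sg (Y.z N e k) = false ∧ sg (Y.z N e (k + 1)) = true) ↔
      ∃ m, k = (N + κ₁) + m * N) := by
    intro k hk
    obtain ⟨k', rfl⟩ := Nat.exists_eq_add_of_le hk
    rw [sg_true, sg_false, him, him', hR]
    constructor
    · rintro ⟨m, rfl⟩
      exact ⟨m, by ring⟩
    · rintro ⟨m, hm⟩
      exact ⟨m, by omega⟩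
  have hposL : ∀ k, N ≤ k → sg (Y.z N e k) = true → sg (Y.z N e (k + 1)) = false →
      xr (Y.z N e k) (Y.z N e (k + 1)) < w ∧ w - Y.rad ≤ xr (Y.z N e k) (Y.z N e (k + 1)) := by
    intro k hk h1 h2
    obtain ⟨k', rfl⟩ := Nat.exists_eq_add_of_le hk
    rw [sg_true, him] at h1
    rw [sg_false, him'] at h2
    rw [hxr]
    obtain ⟨h3, h4⟩ := hpL k' h1 h2
    obtain ⟨t, ht0, ht1, ht⟩ := xr_conv (u k') (u (k' + 1)) (Or.inl ⟨h1, h2⟩)
    have h5 := (abs_le.1 (hre k')).1
    have h6 := (abs_le.1 (hre (k' + 1))).1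
    rw [ht]
    constructor
    · rcases ht0.eq_or_lt with h0 | h0
      · rw [← h0]
        linarith
      · nlinarith [mul_pos h0 (neg_pos.2 h4), mul_nonneg (sub_nonneg.2 ht1) (neg_pos.2 h3).le]
    · nlinarith [mul_nonneg ht0 (by linarith : 0 ≤ (u (k' + 1)).re + Y.rad),
        mul_nonneg (sub_nonneg.2 ht1) (by linarith : 0 ≤ (u k').re + Y.rad)]
  have hposR : ∀ k, N ≤ k → sg (Y.z N e k) = false → sg (Y.z N e (k + 1)) = true →
      w < xr (Y.z N e k) (Y.z N e (k + 1)) ∧ xr (Y.z N e k) (Y.z N e (k + 1)) ≤ w + Y.rad := by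
    intro k hk h1 h2
    obtain ⟨k', rfl⟩ := Nat.exists_eq_add_of_le hk
    rw [sg_false, him] at h1
    rw [sg_true, him'] at h2
    rw [hxr]
    obtain ⟨h3, h4⟩ := hpR k' h1 h2
    obtain ⟨t, ht0, ht1, ht⟩ := xr_conv (u k') (u (k' + 1)) (Or.inr ⟨h1, h2⟩)
    have h5 := (abs_le.1 (hre k')).2
    have h6 := (abs_le.1 (hre (k' + 1))).2
    rw [ht]
    constructor
    · rcases ht0.eq_or_lt with h0 | h0
      · rw [← h0]
        linarith
      · nlinarith [mul_pos h0 h4, mul_nonneg (sub_nonneg.2 ht1) h3.le]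
    · nlinarith [mul_nonneg ht0 (by linarith : 0 ≤ Y.rad - (u (k' + 1)).re),
        mul_nonneg (sub_nonneg.2 ht1) (by linarith : 0 ≤ Y.rad - (u k').re)]
  have hrad : Y.rad < 1 / 4 := Y.rad_lt
  have hrad0 : 0 < Y.rad := Y.rad_pos
  have hne : κ₀ ≠ κ₁ := by
    intro h
    have h1 := ((hL κ₀).2 ⟨0, by ring⟩).1
    have h2 := ((hR κ₀).2 ⟨0, by rw [h]; ring⟩).1
    linarith
  -- one turn
  have hturn : ∀ m, Y.c T N e (N + κ₀ + (m + 1) * N) =
      T.r (Y.wt e) (T.r (lf n (Y.wt e)) (Y.c T N e (N + κ₀ + m * N))) := by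
    intro m
    set j := N + κ₀ + m * N with hj
    have hjN : N ≤ j := by rw [hj]; nlinarith [Nat.zero_le (m * N)]
    obtain ⟨hf1, hf2⟩ := (hleft j hjN).2 ⟨m, rfl⟩
    -- the right crossing
    obtain ⟨m', j', hj', hj1, hj2⟩ : ∃ m' j', j' = N + κ₁ + m' * N ∧ j < j' ∧ j' < j + N := by
      rcases lt_or_gt_of_ne hne with h | h
      · exact ⟨m, N + κ₁ + m * N, rfl, by omega, by omega⟩
      · refine ⟨m + 1, N + κ₁ + (m + 1) * N, rfl, ?_, ?_⟩ <;>
        · rw [hj, add_mul]
          omega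
    have hj'N : N ≤ j' := by omega
    obtain ⟨hg1, hg2⟩ := (hright j' hj'N).2 ⟨m', hj'⟩
    have hno : ∀ i, j < i → i < j + N → i ≠ j' → sg (Y.z N e i) = sg (Y.z N e (i + 1)) := by
      intro i hi1 hi2 hi3
      by_contra hcon
      rcases Bool.eq_false_or_eq_true (sg (Y.z N e i)) with h1 | h1
      · have h2 : sg (Y.z N e (i + 1)) = false := by
          rcases Bool.eq_false_or_eq_true (sg (Y.z N e (i + 1))) with h3 | h3
          · exact (hcon (h1.trans h3.symm)).elim
          · exact h3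
        obtain ⟨m₂, hm₂⟩ := (hleft i (by omega)).1 ⟨h1, h2⟩
        have h4 : m < m₂ := by
          by_contra h5
          have : m₂ * N ≤ m * N := Nat.mul_le_mul_right _ (not_lt.1 h5)
          omega
        have h6 : (m + 1) * N ≤ m₂ * N := Nat.mul_le_mul_right _ h4
        rw [add_mul] at h6
        omega
      · have h2 : sg (Y.z N e (i + 1)) = true := by
          rcases Bool.eq_false_or_eq_true (sg (Y.z N e (i + 1))) with h3 | h3
          · exact h3
          · exact (hcon (h1.trans h3.symm)).elim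
        obtain ⟨m₂, hm₂⟩ := (hright i (by omega)).1 ⟨h1, h2⟩
        rcases lt_trichotomy m₂ m' with h4 | h4 | h4
        · have h6 : (m₂ + 1) * N ≤ m' * N := Nat.mul_le_mul_right _ h4
          rw [add_mul] at h6
          omega
        · rw [h4] at hm₂
          omega
        · have h6 : (m' + 1) * N ≤ m₂ * N := Nat.mul_le_mul_right _ h4
          rw [add_mul] at h6
          omega
    have hcd : Y.c T N e = cell T (cell0 T (Y.γ e 0)) (Y.z N e) := rfl
    rw [hcd]
    set c := cell T (cell0 T (Y.γ e 0)) (Y.z N e) with hc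
    have hA : c (j + 1) = T.r (lf n (Y.wt e)) (c j) := by
      refine cell_flip T _ _ j _ (by rw [hf1, hf2]; decide) ?_
      obtain ⟨h1, h2⟩ := hposL j hjN hf1 hf2
      exact (hSDL n (Y.wt e) _ hn).1 (by rw [← hw]; linarith) (by rw [← hw]; exact h1)
    have hB : c j' = c (j + 1) := by
      have h1 := cell_const T (cell0 T (Y.γ e 0)) (Y.z N e) (j + 1) (j' - (j + 1))
        (fun i h2 h3 => hno i (by omega) (by omega) (by omega))
      rwa [show j + 1 + (j' - (j + 1)) = j' by omega] at h1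
    have hC : c (j' + 1) = T.r (Y.wt e) (c j') := by
      refine cell_flip T _ _ j' _ (by rw [hg1, hg2]; decide) ?_
      obtain ⟨h1, h2⟩ := hposR j' hj'N hg1 hg2
      exact (hSDL n (Y.wt e) _ hn).2 (by rw [← hw]; exact h1) (by rw [← hw]; linarith)
    have hD : c (j + N) = c (j' + 1) := by
      have h1 := cell_const T (cell0 T (Y.γ e 0)) (Y.z N e) (j' + 1) (j + N - (j' + 1))
        (fun i h2 h3 => hno i (by omega) (by omega) (by omega))
      rwa [show j' + 1 + (j + N - (j' + 1)) = j + N by omega] at h1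
    have hE : N + κ₀ + (m + 1) * N = j + N := by rw [hj]; ring
    rw [hE, hD, hC, hB, hA]
  refine ⟨N + κ₀, by omega, by omega, hleft, hposL, hposR, ?_, ?_⟩
  · intro m
    have h1 := hSCL Y N (by omega) e (N + κ₀) m (by omega)
    have h2 := hSCL Y N (by omega) e (N + κ₀ + 1) m (by omega)
    rw [hwc] at h1 h2
    have h3 : ∀ k, Y.z N e k = (w : ℂ) + (Y.z N e k - (w : ℂ)) := fun k => by ring
    have h4 : ((2 : ℂ) ^ m) = ((2 ^ m : ℝ) : ℂ) := by push_cast; rfl
    rw [h4] at h1 h2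
    rw [show N + κ₀ + m * N + 1 = N + κ₀ + 1 + m * N by ring, h3 (N + κ₀ + m * N),
      h3 (N + κ₀ + 1 + m * N), xr_shift, h1, h2, xr_scale _ (by positivity), h3 (N + κ₀),
      h3 (N + κ₀ + 1), xr_shift]
    simp only [add_sub_cancel_left]
    rw [← hw]
    ring
  · intro m
    induction m with
    | zero => simp
    | succ m ih => rw [hturn m, ih, Function.iterate_succ_apply']

end Pool.Agent.H78.BPQ
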